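import Mathlib
import Pool.Agent.J6H99.CS.Main
import Pool.Agent.J6H99.CS.Corr
import Pool.Agent.J6H99.CS.Gauge

/-!
# Compact solutions of `∑ c i j • T ^ i * K * T ^ j = 0` and hyperinvariant subspaces
-/

set_option autoImplicit false

open Filter Topology Metric Set

namespace Pool.Agent.Results.MP_f981b0_an.CompactSolutions

variable {X : Type*} [NormedAddCommGroup X] [NormedSpace ℂ X]

/-- The operator `∑ c (i, j) • T ^ i * K * T ^ j`. -/
noncomputable def act (T : X →L[ℂ] X) (c : ℕ × ℕ → ℂ) (K : X →L[ℂ] X) : X →L[ℂ] X :=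
  ∑' e : ℕ × ℕ, c e • (T ^ e.1 * K * T ^ e.2)

/-- The value `p(x, y) = ∑ c (i, j) * (x ^ i * y ^ j)` of the symbol. -/
noncomputable def symbol (c : ℕ × ℕ → ℂ) (x y : ℂ) : ℂ := ∑' e : ℕ × ℕ, c e * (x ^ e.1 * y ^ e.2)

/-- The symbol is a nonzero polynomial of degree at most one in each of the two variables. -/
def Bilinear (c : ℕ × ℕ → ℂ) : Prop := c ≠ 0 ∧ ∀ e : ℕ × ℕ, c e ≠ 0 → e.1 ≤ 1 ∧ e.2 ≤ 1

/-- The number `ρ` exceeds the spectral radius of `T`, and the symbol converges absolutely for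
`|x|, |y| ≤ ρ`. -/
def Admissible (T : X →L[ℂ] X) (c : ℕ × ℕ → ℂ) (ρ : ℝ) : Prop :=
  (∀ x ∈ spectrum ℂ T, ‖x‖ < ρ) ∧ Summable fun e : ℕ × ℕ => ‖c e‖ * ρ ^ (e.1 + e.2)

/-- There is a power series `g`, absolutely convergent for `|x| ≤ ρ`, such that `|g(x)| ≠ |g(y)|` at
each zero `(x, y)` of the symbol in the square of the spectrum of `T`. -/
def Separated (T : X →L[ℂ] X) (c : ℕ × ℕ → ℂ) : Prop :=
  ∃ (ρ : ℝ) (g : ℕ → ℂ), Admissible T c ρ ∧ Summable (fun n => ‖g n‖ * ρ ^ n) ∧
    ∀ x ∈ spectrum ℂ T, ∀ y ∈ spectrum ℂ T, symbol c x y = 0 →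
      ‖∑' n, g n * x ^ n‖ ≠ ‖∑' n, g n * y ^ n‖

/-- The symbol vanishes to order `d` at the origin, its homogeneous part of degree `d` has no zero with
`|x| = |y| ≠ 0`, and at each zero `(x, y)` of the symbol in the square of the spectrum of `T` either
`|x| ≠ |y|` or `x = y = 0`. -/
def Hyperbolic (T : X →L[ℂ] X) (c : ℕ × ℕ → ℂ) : Prop :=
  ∃ (ρ : ℝ) (d : ℕ), Admissible T c ρ ∧ (∀ e : ℕ × ℕ, e.1 + e.2 < d → c e = 0) ∧
    (∀ z : ℂ, ‖z‖ = 1 → ∑ i ∈ Finset.range (d + 1), c (i, d - i) * z ^ i ≠ 0) ∧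
    ∀ x ∈ spectrum ℂ T, ∀ y ∈ spectrum ℂ T, symbol c x y = 0 → ‖x‖ = ‖y‖ → x = 0

open Pool.Agent.J6H99.CS

theorem act_compact [CompleteSpace X] (T : X →L[ℂ] X) (c : ℕ × ℕ → ℂ) {K : X →L[ℂ] X}
    (hK : IsCompactOperator K) : IsCompactOperator (act T c K) := by
  unfold act
  by_cases hs : Summable fun e : ℕ × ℕ => c e • (T ^ e.1 * K * T ^ e.2)
  · have h := hs.hasSum
    refine isCompactOperator_of_tendsto (l := atTop) h ?_
    refine Eventually.of_forall fun s => ?_
    refine Finset.sum_induction _ (fun A : X →L[ℂ] X => IsCompactOperator A)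
      (fun A B hA hB => hA.add hB) isCompactOperator_zero ?_
    intro e _
    have h1 : IsCompactOperator (T ^ e.1 * K * T ^ e.2) :=
      (hK.clm_comp (T ^ e.1)).comp_clm (T ^ e.2)
    exact h1.smul (c e)
  · rw [tsum_eq_zero_of_not_summable hs]
    exact isCompactOperator_zero

theorem exists_between' [CompleteSpace X] [Nontrivial X] {T : X →L[ℂ] X} {ρ : ℝ}
    (h : ∀ x ∈ spectrum ℂ T, ‖x‖ < ρ) :
    ∃ σ : ℝ, 0 < σ ∧ σ < ρ ∧ ∀ x ∈ spectrum ℂ T, ‖x‖ < σ := by
  have hcs : IsCompact (spectrum ℂ T) := spectrum.isCompact T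
  obtain ⟨k, hk, hkm⟩ := hcs.exists_isMaxOn (spectrum.nonempty T) continuous_norm.continuousOn
  have hk1 := h k hk
  have hk0 := norm_nonneg k
  refine ⟨(‖k‖ + ρ) / 2, by linarith, by linarith, fun c hc => ?_⟩
  have : ‖c‖ ≤ ‖k‖ := hkm hc
  linarith

theorem step [CompleteSpace X] {T K : X →L[ℂ] X} (hT : ∀ c : ℂ, T ≠ c • (1 : X →L[ℂ] X))
    (hK : IsCompactOperator K) (hK0 : K ≠ 0) {c : ℕ × ℕ → ℂ}
    (hc : Bilinear c ∨ Separated T c ∨ Hyperbolic T c) (h : act T c K = 0) :
    HasInv {S : X →L[ℂ] X | S * T = T * S} := by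
  obtain ⟨v, hv⟩ : ∃ x, K x ≠ 0 := by
    by_contra hcon
    push Not at hcon
    exact hK0 (ContinuousLinearMap.ext hcon)
  have : Nontrivial X := ⟨⟨K v, 0, hv⟩⟩
  rcases hc with ⟨hc0, hdeg⟩ | ⟨ρ, g, ⟨hρ, hc⟩, hg, hsep⟩ | ⟨ρ, d, ⟨hρ, hc⟩, hd, hz, hsep⟩
  · refine moebius hK hK0 (fun S hS => hS) hT (a := c (1, 0)) (b := c (0, 1)) (c := c (1, 1))
      (d := c (0, 0)) ?_ ?_
    · rintro ⟨h1, h2, h3, h4⟩
      apply hc0
      ext ⟨i, j⟩
      by_contra hne
      obtain ⟨hi, hj⟩ := hdeg _ hne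
      interval_cases i <;> interval_cases j
      · exact hne h4
      · exact hne h2
      · exact hne h1
      · exact hne h3
    · have h1 : act T c K = ∑ e ∈ ({(1, 0), (0, 1), (1, 1), (0, 0)} : Finset (ℕ × ℕ)),
          c e • (T ^ e.1 * K * T ^ e.2) := by
        refine tsum_eq_sum fun e he => ?_
        have : c e = 0 := by
          by_contra hne
          obtain ⟨hi, hj⟩ := hdeg _ hne
          apply he
          obtain ⟨i, j⟩ := e
          simp only at hi hj
          interval_cases i <;> interval_cases j <;> simp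
        rw [this, zero_smul]
      rw [h1] at h
      rw [← h]
      rw [Finset.sum_insert (by decide), Finset.sum_insert (by decide), Finset.sum_insert (by decide),
        Finset.sum_singleton]
      simp only [pow_zero, pow_one, one_mul, mul_one]
      abel
  · obtain ⟨σ, hσ, hσρ, hTσ⟩ := exists_between' hρ
    exact gauge hK hK0 (fun S hS => hS) hσ hσρ hTσ hc hg h hsep
  · obtain ⟨σ, hσ, hσρ, hTσ⟩ := exists_between' hρ
    refine corr hK hK0 (fun S hS => hS) hT hσ hσρ hTσ hc hd h ?_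
    intro z hz1 x hx y hy hxy
    by_cases hy0 : y = 0
    · subst hy0
      have h1 : ∑' e : ℕ × ℕ, c e * (z ^ e.1 * (0 : ℂ) ^ (e.1 + e.2 - d)) =
          ∑ e ∈ Finset.HasAntidiagonal.antidiagonal d,
            c e * (z ^ e.1 * (0 : ℂ) ^ (e.1 + e.2 - d)) := by
        refine tsum_eq_sum fun e he => ?_
        rw [Finset.HasAntidiagonal.mem_antidiagonal] at he
        rcases lt_or_gt_of_ne he with h2 | h2
        · rw [hd e h2, zero_mul]
        · rw [zero_pow (by omega), mul_zero, mul_zero]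
      rw [h1, Finset.Nat.sum_antidiagonal_eq_sum_range_succ_mk]
      convert hz z hz1 using 1
      refine Finset.sum_congr rfl fun i hi => ?_
      rw [Finset.mem_range] at hi
      have h2 : i + (d - i) - d = 0 := by omega
      simp only [h2, pow_zero, mul_one]
    · intro h0
      have h2 : symbol c x y = 0 := by
        have h3 : symbol c x y = y ^ d * ∑' e : ℕ × ℕ, c e * (z ^ e.1 * y ^ (e.1 + e.2 - d)) := by
          unfold symbol
          rw [← tsum_mul_left]
          refine tsum_congr fun e => ?_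
          by_cases hed : e.1 + e.2 < d
          · rw [hd e hed]
            ring
          · push Not at hed
            have h4 : y ^ (e.1 + e.2) = y ^ d * y ^ (e.1 + e.2 - d) := by
              rw [← pow_add]; congr 1; omega
            rw [hxy, mul_pow, mul_assoc (z ^ e.1), ← pow_add, h4]
            ring
        rw [h3, h0, mul_zero]
      have h5 : ‖x‖ = ‖y‖ := by rw [hxy, norm_mul, hz1, one_mul]
      have h6 := hsep x hx y hy h2 h5
      rw [h6, norm_zero] at h5
      exact hy0 (norm_eq_zero.1 h5.symm)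

/-- **Main theorem.** Let `T` be a non-scalar bounded operator on a complex Banach space, `K` a nonzero
compact operator and `c₁, …, cₘ` coefficient families, each of them bilinear, separated for `T` or
hyperbolic for `T`. If the operators `K ↦ ∑ c (i, j) • T ^ i * K * T ^ j` for `c = cₘ, …, c₁`, applied one
after the other, send `K` to `0`, then there is a closed subspace, neither zero nor the whole space, which
is invariant under every bounded operator commuting with `T`. -/
theorem result {X : Type*} [NormedAddCommGroup X] [NormedSpace ℂ X] [CompleteSpace X]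
    (T K : X →L[ℂ] X) (hT : ∀ c : ℂ, T ≠ c • (1 : X →L[ℂ] X)) (hK : IsCompactOperator K) (hK0 : K ≠ 0)
    (l : List (ℕ × ℕ → ℂ)) (hl : ∀ c ∈ l, Bilinear c ∨ Separated T c ∨ Hyperbolic T c)
    (h : l.foldr (act T) K = 0) :
    ∃ E : Submodule ℂ X, IsClosed (E : Set X) ∧ E ≠ ⊥ ∧ E ≠ ⊤ ∧
      ∀ S : X →L[ℂ] X, S * T = T * S → ∀ x ∈ E, S x ∈ E := by
  have hcomp : ∀ l : List (ℕ × ℕ → ℂ), IsCompactOperator (l.foldr (act T) K : X →L[ℂ] X) := by
    intro l
    induction l with
    | nil => exact hK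
    | cons c l ih => exact act_compact T c ih
  have key : HasInv {S : X →L[ℂ] X | S * T = T * S} := by
    induction l with
    | nil => exact absurd h hK0
    | cons c l ih =>
      by_cases h0 : l.foldr (act T) K = 0
      · exact ih (fun c hc => hl c (List.mem_cons_of_mem _ hc)) h0
      · exact step hT (hcomp l) h0 (hl c List.mem_cons_self) h
  exact key

end Pool.Agent.Results.MP_f981b0_an.CompactSolutions
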