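import Pool.Agent.J6H34.GRO.Main

/-!
# Generic rank one perturbations of an arbitrary operator have hyperinvariant half-spaces

Let `X` be an infinite-dimensional complex Banach space (for instance a separable reflexive one)
and let `T 0, T 1, T 2, ...` be ANY bounded operators on `X`. For a pair `p = (u, v)` of a vector
and a continuous functional let `pert (T i) p` be the rank one perturbation
`x ↦ T i x + v(x) u`. The pairs form the complete metric space `X × X'`; nothing is assumed about
the operators `T i`, and the exceptional pairs are meagre.

* (1) For every `i` there is a dense open set of pairs `p` for which `pert (T i) p` has an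
  eigenvalue outside of the spectrum of `T i`, and a nontrivial closed hyperinvariant subspace.
* (2) There is one dense `G_δ` set of pairs `p` which have, for every `i`, these properties.
  (a) Every boundary point of the spectrum of `T i` which is not a pole of the resolvent of `T i`
  is a limit of eigenvalues of `pert (T i) p` that are not in the spectrum of `T i`.
  (b) If `T i` is not algebraic, then the hyperinvariant subspaces of `pert (T i) p` contain a
  copy of the ordered set of all sets of natural numbers: there is an order embedding
  `A ↦ M A` into the closed hyperinvariant subspaces, such that `M A` has infinite dimension if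
  `A` is infinite, and infinite codimension if the complement of `A` is infinite.
  (c) In all cases (`T i` algebraic or not) `pert (T i) p` has an invariant half-space (a closed
  invariant subspace of infinite dimension and infinite codimension).

Popov and Tcaciuc (2013, reflexive spaces) and Tcaciuc (2019, all Banach spaces) proved that every
operator has at least one rank one perturbation (which can be taken arbitrarily small) with an
invariant half-space. Here all rank one perturbations outside of a meagre set have one, and it is
hyperinvariant for the perturbed operator. (For an algebraic operator such as `T = 0` the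
perturbed operators are algebraic, and need not have hyperinvariant half-spaces.)

Proof. The solutions `z ∉ σ(T)` of `v((z - T)⁻¹ u) = 1` are eigenvalues of `T + u ⊗ v`, with
one-dimensional eigenspaces. If this equation has no solution `z ∈ D \ σ(T)` (`D` a disc), for all
`(u, v)` in a ball, then the polynomials `(s, t) ↦ (v + t y)((z - T)⁻¹ (u + s x)) - 1` have no
zeros in a bidisc, which gives `‖(z - T)⁻¹‖ ≤ C |v((z - T)⁻¹ u) - 1|`. So the function
`h(z) = 1 / (v((z - T)⁻¹ u) - 1)` is `O(|z - s|)` for all `s` in `σ(T)`. The maximum principle for
`h² / ∏ (z - s_j)`, with many points `s_j` of the spectrum, shows that the points of `σ(T) ∩ D` are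
isolated, and then they are poles. The functionals `y_k(x) = ∮ v((z - T)⁻¹ x) / (v((z - T)⁻¹ u) - 1)`
(circles around the eigenvalues) are biorthogonal to the eigenvectors.
-/

open Pool.Agent.J6H34.GRO

theorem Pool.Agent.Results.MP_f981b0_an.GenericRankOne.result
    (X : Type*) [NormedAddCommGroup X] [NormedSpace ℂ X] [CompleteSpace X]
    (hX : ¬ FiniteDimensional ℂ X) (T : ℕ → (X →L[ℂ] X)) :
    (∀ i, ∃ U : Set (X × StrongDual ℂ X), IsOpen U ∧ Dense U ∧ ∀ p ∈ U,
      (eigenvalues (pert (T i) p) \ spectrum ℂ (T i)).Nonempty ∧
      ∃ M : Submodule ℂ X, Hyperinvariant (pert (T i) p) M ∧ M ≠ ⊥ ∧ M ≠ ⊤) ∧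
    ∃ U : Set (X × StrongDual ℂ X), IsGδ U ∧ Dense U ∧ ∀ p ∈ U, ∀ i,
      (∀ c ∈ frontier (spectrum ℂ (T i)), ¬ RegularOrPole (T i) c →
        c ∈ closure (eigenvalues (pert (T i) p) \ spectrum ℂ (T i))) ∧
      (¬ IsAlgebraic ℂ (T i) → ∃ M : Set ℕ ↪o Submodule ℂ X, ∀ A : Set ℕ,
        Hyperinvariant (pert (T i) p) (M A) ∧
        (A.Infinite → ¬ FiniteDimensional ℂ (M A)) ∧
        (Aᶜ.Infinite → ¬ FiniteDimensional ℂ (X ⧸ M A))) ∧
      ∃ M : Submodule ℂ X, IsClosed (M : Set X) ∧ (∀ x ∈ M, pert (T i) p x ∈ M) ∧
        ¬ FiniteDimensional ℂ M ∧ ¬ FiniteDimensional ℂ (X ⧸ M) := by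
  have hnt : Nontrivial X := by
    by_contra hno
    have : Subsingleton X := not_nontrivial_iff_subsingleton.1 hno
    exact hX inferInstance
  exact ⟨fun i => ⟨G (T i) Set.univ, isOpen_G _ _, dense_G_univ _, fun p hp =>
    one_eigenvalue hX hp⟩, generic hX T⟩
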