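import Pool.Agent.J6H88.GC.Grp

/-!
# Random operators and group algebras: hyperinvariant subspaces for almost every value of the parameters

(1) Let the countable group `G` act ergodically on a probability space `(Ω, P)` and let `T_i ω` (`i` in a finite
set) be bounded measurable covariant families of operators on `ℓ²(G)`: `T_i (h ω) L_h = L_h (T_i ω)` for the left
translations `L_h`.  For complex polynomials `p_i` in `d` variables let `X(z) ω = ∑ i, p_i(z) T_i ω`.  The trace
of a covariant family is `τ(A) = ∫ ⟨δ_1, A(ω) δ_1⟩ dP`.  Suppose that at one point `z₀ ∈ ℂ^d` the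
Fuglede-Kadison determinant of `X(z₀) - τ(X(z₀))` is positive, that is, the numbers
`∫ ⟨δ_1, log (δ + |X(z₀) ω - τ(X(z₀))|²) δ_1⟩ dP`, `δ > 0`, are bounded from below.  Then for almost every
`z ∈ ℂ^d`, and also for almost every `z ∈ ℝ^d`, for almost every `ω ∈ Ω` the operator `X(z) ω` has a closed
subspace, neither `{0}` nor the whole space, invariant under all bounded operators commuting with it.

(2) In particular, let `G` be any countable group and `F` a finite subset of `G` which contains an element
different from `1`.  Then for almost every `(a_g) ∈ ℂ^F`, and also for almost every `(a_g) ∈ ℝ^F`, the element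
`∑ a_g g` of the group algebra, acting on `ℓ²(G)` by convolution, has a nontrivial closed hyperinvariant
subspace.

Examples for (1).  `T ω` an arbitrary covariant family, `V ω` the multiplication by the potential
`v(i⁻¹ ω)`, `i ∈ G`, with `log |v - ∫ v|` integrable; or `V ω` a translation `R_g`, `g ≠ 1`.  Then
`T ω + z V ω` has hyperinvariant subspaces for almost every `ω`, for almost every complex and almost every
real coupling constant `z` (take the family `z₁ T ω + z₂ V ω` and `z₀ = (0, 1)`): for instance the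
non-selfadjoint Anderson model on any Cayley graph.

The earlier results (starting files) on such operators need a leading coefficient: for a homomorphism to `ℤ`
(`ErgodicOperators`) or for a left-invariant order of `G` (`LeftOrderedGroups`), or a sofic group or action and
algebraic coefficients (`AlgebraicCoefficients`).  In (2) nothing is assumed on `G`, which may be a torsion
group or a simple group.

Proof.  As for `J6H88.HypAE.AlmostEveryCoupling`, in the C*-algebra of covariant families: mean values over
circles of `τ log (δ + |p(w)|²)`, the Cayley transform, and Fubini's theorem show that the determinant of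
`X(z) - τ(X(z))` is positive for almost every `z`; so the Brown measure is not a point mass, and the tracial
method with the zero-one law for covariant families (starting library, `W338.RO`, `W545.RO`) applies.
-/

set_option autoImplicit false
open MeasureTheory
open scoped InnerProductSpace

namespace Pool.Agent.Results.MP_f981b0_an.RandomCouplings

/-- the Hilbert space of square summable complex functions on `G` -/
abbrev L2 (G : Type) : Type := lp (fun _ : G => ℂ) 2

/-- the bounded operators on `ℓ²(G)` -/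
abbrev Op (G : Type) : Type := L2 G →L[ℂ] L2 G

/-- `G` acts on the probability space `(Ω, P)` by measure-preserving maps, and every measurable set which is
invariant under all of them has probability zero or one -/
structure ErgodicAction (G : Type) {Ω : Type} [Group G] [MeasurableSpace Ω] [MulAction G Ω]
    (P : Measure Ω) : Prop where
  preserving : ∀ g : G, MeasurePreserving (fun ω : Ω => g • ω) P P
  ergodic : ∀ B : Set Ω, MeasurableSet B → (∀ g : G, (fun ω : Ω => g • ω) ⁻¹' B = B) →
    P B = 0 ∨ P Bᶜ = 0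

/-- bounded measurable families of operators on `ℓ²(G)` with `T (h ω) L_h = L_h (T ω)`, `(L_h f)(h i) = f(i)` -/
structure CovariantFamily {G Ω : Type} [Group G] [MeasurableSpace Ω] [MulAction G Ω]
    (T : Ω → Op G) : Prop where
  bounded : ∃ C : ℝ, ∀ ω, ‖T ω‖ ≤ C
  measurable : ∀ (f : L2 G) (i : G), Measurable fun ω => (T ω f : G → ℂ) i
  covariant : ∀ (h : G) (ω : Ω) (f f' : L2 G), (∀ i, (f' : G → ℂ) i = (f : G → ℂ) (h * i)) →
    ∀ i, (T (h • ω) f : G → ℂ) (h * i) = (T ω f' : G → ℂ) i

open Classical in
/-- the unit vector `δ_1` -/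
noncomputable def delta (G : Type) [Group G] : L2 G := lp.single 2 (1 : G) (1 : ℂ)

/-- the trace `∫ ⟨δ_1, A(ω) δ_1⟩ dP` -/
noncomputable def trace {G Ω : Type} [Group G] [MeasurableSpace Ω] (P : Measure Ω) (A : Ω → Op G) : ℂ :=
  ∫ ω, ⟪delta G, A ω (delta G)⟫_ℂ ∂P

/-- `⟨v, log (δ + S* S) v⟩` -/
noncomputable def logAt {H : Type} [NormedAddCommGroup H] [InnerProductSpace ℂ H] [CompleteSpace H]
    (v : H) (δ : ℝ) (S : H →L[ℂ] H) : ℝ :=
  (⟪v, CFC.log ((δ : ℂ) • (1 : H →L[ℂ] H) + star S * S) v⟫_ℂ).re

/-- the Fuglede-Kadison determinant of the covariant family `S` is positive: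
`∫ ⟨δ_1, log (δ + S(ω)* S(ω)) δ_1⟩ dP` is bounded from below for `δ > 0` -/
def PositiveDeterminant {G Ω : Type} [Group G] [MeasurableSpace Ω] (P : Measure Ω) (S : Ω → Op G) : Prop :=
  ∃ C : ℝ, ∀ δ : ℝ, 0 < δ → C ≤ ∫ ω, logAt (delta G) δ (S ω) ∂P

/-- the operator `∑ i, p_i(z) c_i` -/
noncomputable def combination {H : Type} [NormedAddCommGroup H] [InnerProductSpace ℂ H] {ι : Type}
    [Fintype ι] {d : ℕ} (p : ι → MvPolynomial (Fin d) ℂ) (c : ι → (H →L[ℂ] H)) (z : Fin d → ℂ) :
    H →L[ℂ] H := ∑ i, MvPolynomial.eval z (p i) • c i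

/-- the operators `X(z) ω = ∑ i, p_i(z) T_i(ω)` -/
noncomputable def family {G Ω ι : Type} [Fintype ι] {d : ℕ} (p : ι → MvPolynomial (Fin d) ℂ)
    (T : ι → Ω → Op G) (z : Fin d → ℂ) (ω : Ω) : Op G := combination p (fun i => T i ω) z

/-- `A - c` -/
noncomputable def subScalar {H : Type} [NormedAddCommGroup H] [InnerProductSpace ℂ H]
    (A : H →L[ℂ] H) (c : ℂ) : H →L[ℂ] H := A - c • (1 : H →L[ℂ] H)

/-- `T` has a closed subspace, neither `{0}` nor the whole space, which is invariant under every bounded
operator commuting with `T` -/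
def HasHyperinvariantSubspace {H : Type} [NormedAddCommGroup H] [NormedSpace ℂ H] (T : H →L[ℂ] H) :
    Prop :=
  ∃ V : Submodule ℂ H, IsClosed (V : Set H) ∧ V ≠ ⊥ ∧ V ≠ ⊤ ∧
    ∀ Q : H →L[ℂ] H, Q * T = T * Q → ∀ x ∈ V, Q x ∈ V

/-- the centred family `X(z) - τ(X(z))` -/
noncomputable def centred {G Ω ι : Type} [Group G] [MeasurableSpace Ω] [Fintype ι] {d : ℕ}
    (P : Measure Ω) (p : ι → MvPolynomial (Fin d) ℂ) (T : ι → Ω → Op G) (z : Fin d → ℂ) (ω : Ω) : Op G :=
  subScalar (family p T z ω) (trace P (family p T z))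

/-- for almost every `z ∈ ℂ^d` and for almost every `z ∈ ℝ^d`, for almost every `ω` the operator `X(z) ω` has a
nontrivial closed hyperinvariant subspace -/
def Generic {G Ω ι : Type} [MeasurableSpace Ω] [Fintype ι] {d : ℕ} (P : Measure Ω)
    (p : ι → MvPolynomial (Fin d) ℂ) (T : ι → Ω → Op G) : Prop :=
  (∀ᵐ z : Fin d → ℂ, ∀ᵐ ω ∂P, HasHyperinvariantSubspace (family p T z ω)) ∧
    ∀ᵐ x : Fin d → ℝ, ∀ᵐ ω ∂P, HasHyperinvariantSubspace (family p T (fun j => (x j : ℂ)) ω)

/-- the operator `(T f)(i) = ∑ g ∈ F, a_g f(i g)` on `ℓ²(G)` has a nontrivial closed hyperinvariant subspace -/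
def ElementHasHyp {G : Type} [Group G] (F : Finset G) (a : F → ℂ) : Prop :=
  ∃ T : Op G, (∀ (f : L2 G) (i : G), (T f : G → ℂ) i = ∑ g : F, a g * (f : G → ℂ) (i * g)) ∧
    HasHyperinvariantSubspace T

open Classical in
theorem delta_eq (G : Type) [Group G] : delta G = Pool.Agent.W611.RO.stb G 1 := by
  refine lp.ext (funext fun i => ?_)
  rw [Pool.Agent.W611.RO.stb_apply]
  unfold delta
  rw [lp.single_apply, Pi.single_apply]

theorem random (G Ω : Type) [Group G] [Countable G] [MeasurableSpace Ω] [MulAction G Ω]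
    (P : Measure Ω) [IsProbabilityMeasure P] (hP : ErgodicAction G P) (ι : Type) [Fintype ι] (d : ℕ)
    (p : ι → MvPolynomial (Fin d) ℂ) (T : ι → Ω → Op G) (hT : ∀ i, CovariantFamily (T i))
    (z₀ : Fin d → ℂ) (hz₀ : PositiveDeterminant P (centred P p T z₀)) : Generic P p T := by
  classical
  choose C hC using fun i => (hT i).bounded
  obtain ⟨κ, hκ⟩ := hz₀
  exact Pool.Agent.J6H88.GC.fin_main P ⟨hP.preserving, hP.ergodic⟩ T C hC
    (fun i => (hT i).measurable) (fun i => (hT i).covariant) p z₀ κ (trace P (family p T z₀)) (by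
      unfold trace family combination
      rw [delta_eq]) (fun δ hδ => by
      have h1 := hκ δ hδ
      have h2 : algebraMap ℝ (Op G) δ = (δ : ℂ) • (1 : Op G) := by
        rw [Algebra.algebraMap_eq_smul_one, Complex.coe_smul]
        rfl
      unfold logAt at h1
      rw [delta_eq] at h1
      rw [h2]
      exact h1)

theorem result :
    -- (1) covariant families
    (∀ (G Ω : Type) [Group G] [Countable G] [MeasurableSpace Ω] [MulAction G Ω]
      (P : Measure Ω) [IsProbabilityMeasure P], ErgodicAction G P →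
      ∀ (ι : Type) [Fintype ι] (d : ℕ) (p : ι → MvPolynomial (Fin d) ℂ) (T : ι → Ω → Op G),
      (∀ i, CovariantFamily (T i)) → ∀ z₀ : Fin d → ℂ,
      PositiveDeterminant P (centred P p T z₀) → Generic P p T) ∧
    -- (2) group algebras
    ∀ (G : Type) [Group G] [Countable G] (F : Finset G), (∃ g ∈ F, g ≠ 1) →
      (∀ᵐ a : F → ℂ, ElementHasHyp F a) ∧ ∀ᵐ a : F → ℝ, ElementHasHyp F fun g => (a g : ℂ) := by
  refine ⟨fun G Ω _ _ _ _ P _ hP ι _ d p T hT z₀ hz₀ => random G Ω P hP ι d p T hT z₀ hz₀, ?_⟩
  intro G _ _ F ⟨g₁, hg₁, h1⟩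
  exact Pool.Agent.J6H88.GC.grp_main G F g₁ hg₁ h1

end Pool.Agent.Results.MP_f981b0_an.RandomCouplings
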