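import Pool.Agent.J6H45.TV.M

/-!
# MP_f981b0_an: typical contractions of self-similar reflexive spaces, and typical positive contractions

The following sets of contractions, with the strong* operator topology, are completely metrizable
(hence Baire spaces), and a typical operator in each of them has nontrivial closed subspaces which are
invariant under all operators commuting with it, arbitrarily close to every vector:

* all contractions of a separable reflexive space with the metric approximation property, whose identity
  is approximated by norm one projections of which there are arbitrarily many copies far away, in the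
  position of an `ℓ_p`-sum (`SelfSum`), for example of `ℓ_p(Y)`, `1 < p < ∞`, for every separable
  reflexive `Y ≠ 0` with the metric approximation property;
* the contractions of `ℓ_p`, `1 < p < ∞`, which preserve the sequences with values in a given closed
  convex cone of the complex plane, for example the positive contractions;
* the doubly substochastic contractions of `ℓ_p`, `1 < p < ∞`.

All cases are instances of one theorem (`typ_stp` in `J6H45/TV/M.lean`) on pointwise closed sets `C` of
contractions of a separable reflexive space, in which every operator is approximated by `A = P A = A P`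
in `C`, annihilated by a separable polynomial, such that the copies of `A` far away, coupled by small
weighted shifts, are again in `C`.

Proof. For `x` in `E` and `y` in the dual let `ρ(T; x, y)` be the norm of `S ↦ y (S x)` on the commutant
of `T`. It is at most `‖y‖ ‖x‖`, and upper semicontinuous in `T` (by reflexivity, with weak operator
limits). `T` may be replaced by `A` as above. By the Hahn-Banach theorem, `y (S x) = ∑ i, v_i (S u_i)`
for all `S = P S P` commuting with `A`, with `∑ i, ‖u_i‖ ^ p ≤ ρ` and `∑ i, ‖v_i‖ ^ q ≤ ρ`. Couple
`m + 2` copies of `A` by a shift with weights `δ, …, δ, w`, add the copies of `u_i` to `x` and those of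
`-v_i` to `y`. In the commutant of the new operator all blocks commute with `A` and form a Toeplitz
matrix (`block_toeplitz` of the starting files), and the last weight `w` makes the off-diagonal blocks
small. So `ρ` becomes almost `0`, while `x` and `y` move by at most `(2 ρ) ^ (1/p)` and
`(2 ρ) ^ (1/q)`. A Baire category argument (as in the starting result on all contractions of scalar
`ℓ_p`) finishes the proof.
-/

set_option autoImplicit false
open TopologicalSpace Pool.Agent.J6H45.TV
open scoped ENNReal ComplexOrder

namespace Pool.Agent.Results.MP_f981b0_an.TypicalVectorValued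

universe u

/-- All contractions of the self-similar spaces with the metric approximation property. -/
def SelfSimilarSpaces : Prop :=
  ∀ (E : Type u) [NormedAddCommGroup E] [NormedSpace ℂ E] [CompleteSpace E] [Nontrivial E]
    [SeparableSpace E] (p : ℝ), 1 < p → Reflexive E → MetricAP E → SelfSum p E →
      TypicalIn (Contr E)

/-- All contractions of `ℓ_p(Y)`, `1 < p < ∞`. -/
def VectorValuedSequenceSpaces : Prop :=
  ∀ (Y : Type u) [NormedAddCommGroup Y] [NormedSpace ℂ Y] [CompleteSpace Y] [Nontrivial Y]
    [SeparableSpace Y] (p : ℝ≥0∞) [Fact (1 ≤ p)], p ≠ 1 → p ≠ ∞ → Reflexive Y → MetricAP Y →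
      SelfSum p.toReal (lp (fun _ : ℕ => Y) p) ∧ TypicalIn (Contr (lp (fun _ : ℕ => Y) p))

/-- The contractions of `ℓ_p`, `1 < p < ∞`, which preserve the sequences with values in a closed convex
cone of the complex plane, in particular the positive contractions. -/
def PositiveContractions : Prop :=
  ∀ (p : ℝ≥0∞) [Fact (1 ≤ p)], p ≠ 1 → p ≠ ∞ → TypicalContractionIn (Positive (coord p)) ∧
    ∀ Φ : Set ℂ, Cone Φ → TypicalContractionIn (Preserves (coord p) Φ)

/-- The doubly substochastic contractions of `ℓ_p`, `1 < p < ∞`: they preserve the nonnegative
sequences, the bound `1` and the bounds for the sums of nonnegative sequences. -/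
def DoublySubstochasticContractions : Prop :=
  ∀ (p : ℝ≥0∞) [Fact (1 ≤ p)], p ≠ 1 → p ≠ ∞ →
    TypicalContractionIn (DoublySubstochastic (coord p))

lemma one_lt {p : ℝ≥0∞} [Fact (1 ≤ p)] (hp1 : p ≠ 1) (hpt : p ≠ ∞) : 1 < p.toReal := by
  rw [← ENNReal.toReal_one]
  exact (ENNReal.toReal_lt_toReal ENNReal.one_ne_top hpt).2 (lt_of_le_of_ne Fact.out hp1.symm)

/-- **Typical contractions have nontrivial closed hyperinvariant subspaces**: all contractions of the
self-similar spaces with the metric approximation property, in particular of `ℓ_p(Y)`, the positive
contractions of `ℓ_p`, and the doubly substochastic ones. -/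
theorem result : SelfSimilarSpaces.{u} ∧ VectorValuedSequenceSpaces.{u} ∧
    PositiveContractions ∧ DoublySubstochasticContractions := by
  refine ⟨?_, ?_, ?_, ?_⟩
  · intro E _ _ _ _ _ p hp hE hM hS
    exact typ_all hE hp hM hS
  · intro Y _ _ _ _ _ p _ hp1 hpt hY hM
    exact ⟨selfSum_lp hpt (one_lt hp1 hpt), typ_LY hpt (one_lt hp1 hpt) hY hM⟩
  · intro p _ hp1 hpt
    exact ⟨typ_pos hpt (one_lt hp1 hpt), fun Φ hΦ => typ_pres hpt (one_lt hp1 hpt) hΦ⟩
  · intro p _ hp1 hpt
    exact typ_ds hpt (one_lt hp1 hpt)

end Pool.Agent.Results.MP_f981b0_an.TypicalVectorValued
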